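import Pool.Agent.Run7.h37.DN.Two

/-!
# MP_c084f5_al: one corner outside a letter determines everything, in both directions

This is the proof of helper461 (`Run7.H461.DetCorner`), written for both signs of `α`: if
`(c_j + 1) a_j + β ∈ H` for all `j ≠ i` and `∑_{j ≠ i} c_j a_j + β ∉ H`, then `g` has a unique
factorization; here `Dir a β g`, that is `(β, g) = (α, h)` or `(β, g) = (-α, h + n α)`.
-/

namespace Pool.Agent.Run7.h37.DN.Corner

open Q122.DetNS Pool.Agent.Run7.h37.DN

variable {n : ℕ} {a : Fin n → ℕ}

/-- The value of an exponent vector. -/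
def S (a : Fin n → ℕ) (x : Fin n → ℕ) : ℤ := ∑ j, (x j : ℤ) * a j

theorem S_mem (x : Fin n → ℕ) : InH a (S a x) := ⟨x, rfl⟩

theorem S_add (x y : Fin n → ℕ) : S a (x + y) = S a x + S a y := by
  unfold S
  rw [← Finset.sum_add_distrib]
  refine Finset.sum_congr rfl ?_
  intro j _
  rw [Pi.add_apply]; push_cast; ring

theorem S_single (j : Fin n) (m : ℕ) : S a (Pi.single j m) = (m : ℤ) * a j := by
  classical
  unfold S
  rw [Finset.sum_eq_single j]
  · simp
  · intro k _ hk
    rw [Pi.single_eq_of_ne hk]; simp
  · simp

theorem S_le {x y : Fin n → ℕ} (hxy : ∀ j, x j ≤ y j) : ∃ z, S a y = S a x + S a z := by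
  refine ⟨fun j => y j - x j, ?_⟩
  rw [← S_add]
  congr 1
  funext j
  have := hxy j
  simp only [Pi.add_apply]
  omega

theorem sub_mem {x : ℤ} {v : Fin n → ℕ} (hx : x = ∑ c, (v c : ℤ) * a c) (c : Fin n) (m : ℕ)
    (hm : m ≤ v c) : InH a (x - (m : ℤ) * a c) := by
  classical
  refine ⟨fun y => v y - (if y = c then m else 0), ?_⟩
  have : ∀ y, ((v y - (if y = c then m else 0) : ℕ) : ℤ) * a y =
      (v y : ℤ) * a y - (if y = c then ((m : ℤ) * a c : ℤ) else 0) := by
    intro y
    by_cases hy : y = c
    · subst hy; simp only [if_true]; push_cast [hm]; ring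
    · simp [hy]
  simp only [this, Finset.sum_sub_distrib]
  rw [hx]; simp

/-- If `(e_j + 1) a_j + β ∈ H` for all `j` and `∑ e_j a_j + β ∉ H`, then `g` has the unique
factorization `e`. -/
theorem of_corner {h α : ℤ} (hn : 3 ≤ n) (ha : IsMinGen a) (D : Dir a α h) (e : Fin n → ℕ)
    (he : ∀ j, InH a (((e j + 1 : ℕ) : ℤ) * a j + α)) (heX : ¬ InH a (S a e + α)) :
    ∃! v : Fin n → ℕ, h = ∑ i, (v i : ℤ) * a i := by
  classical
  have hg := ha.1
  have hpos : ∀ i, 0 < a i := fun i => (ha.2 i).1
  have hh1 : ¬ InH a (h + α) := by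
    have := D.top 1 (by omega) (by omega)
    simpa using this
  have hhe := D.dual _ (S_mem e) heX
  have hheq : h = S a e := by
    by_contra hne
    obtain ⟨x, hx⟩ := exists_sub hhe (fun h0 => hne (by linarith))
    apply hh1
    have h1 : ∃ z, S a e = S a (Pi.single x (e x)) + S a z := by
      apply S_le
      intro j
      by_cases hj : j = x
      · subst hj; simp
      · simp [hj]
    obtain ⟨z, hz⟩ := h1
    rw [S_single] at hz
    have h2 := ((he x).add (S_mem z)).add hx
    have e1 : h + α = ((e x + 1 : ℕ) : ℤ) * a x + α + S a z + (h - S a e - a x) := by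
      rw [hz]; push_cast; ring
    rw [e1]; exact h2
  refine ⟨e, hheq, ?_⟩
  intro v hv
  have hbound : ∀ x, v x ≤ e x := by
    intro x
    by_contra hcon
    apply hh1
    have h1 := (sub_mem hv x (e x + 1) (by omega)).add (he x)
    have e1 : h + α = h - ((e x + 1 : ℕ) : ℤ) * a x + (((e x + 1 : ℕ) : ℤ) * a x + α) := by ring
    rw [e1]; exact h1
  by_contra hne
  have hlt : ∃ x, v x < e x := by
    by_contra hcon
    push Not at hcon
    apply hne
    funext x
    exact le_antisymm (hbound x) (hcon x)
  obtain ⟨x, hx⟩ := hlt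
  have hsum : ∑ j, (v j : ℤ) * a j < ∑ j, (e j : ℤ) * a j := by
    apply Finset.sum_lt_sum
    · intro j _
      have h1 : (v j : ℤ) ≤ e j := by exact_mod_cast hbound j
      have h2 : (0 : ℤ) ≤ a j := by positivity
      nlinarith
    · refine ⟨x, Finset.mem_univ _, ?_⟩
      have h1 : (v x : ℤ) < e x := by exact_mod_cast hx
      have h2 : (0 : ℤ) < a x := by exact_mod_cast hpos x
      nlinarith
  rw [← hv] at hsum
  rw [hheq] at hsum
  exact lt_irrefl _ hsum

theorem core {h α : ℤ} (hn : 3 ≤ n) (ha : IsMinGen a) (D : Dir a α h) (i : Fin n)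
    (c : Fin n → ℕ) (hci : c i = 0)
    (hc : ∀ j, j ≠ i → InH a (((c j + 1 : ℕ) : ℤ) * a j + α)) (hX : ¬ InH a (S a c + α)) :
    ∃! v : Fin n → ℕ, h = ∑ i, (v i : ℤ) * a i := by
  classical
  have hg := ha.1
  have hpos : ∀ i, 0 < a i := fun i => (ha.2 i).1
  have hnz : ∀ x, InH a x → x + α ≠ 0 := by
    intro x hx hx0
    apply D.neg
    have e : -α = x := by linarith
    rw [e]
    exact hx
  obtain ⟨N, hN⟩ := exists_large hg
  -- subsums of `c` lie in `D`
  have hsub : ∀ x : Fin n → ℕ, (∀ j, x j ≤ c j) → ¬ InH a (S a x + α) := by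
    intro x hx hcon
    obtain ⟨z, hz⟩ := S_le (a := a) hx
    apply hX
    have e1 : S a c + α = S a x + α + S a z := by rw [hz]; ring
    rw [e1]; exact hcon.add (S_mem z)
  -- the moves
  have hgex : ∀ x : Fin n, ∃ y : Fin n, (x = i → y = i) ∧
      (x ≠ i → InH a (((c x + 1 : ℕ) : ℤ) * a x + α - a y)) := by
    intro x
    by_cases hx : x = i
    · exact ⟨i, fun _ => rfl, fun h1 => absurd hx h1⟩
    · obtain ⟨y, hy⟩ := exists_sub (hc x hx) (hnz _ (InH.smul _ _))
      exact ⟨y, fun h1 => absurd h1 hx, fun _ => hy⟩
  choose g hgi hgx using hgex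
  have hgii : g i = i := hgi i rfl
  -- the only periodic point is `i`
  have hper : ∀ x, x ∈ Function.periodicPts g → x = i := by
    set F : Finset (Fin n) := Finset.univ.filter (fun x => x ∈ Function.periodicPts g ∧ x ≠ i)
      with hF
    have hbij := Function.bijOn_periodicPts g
    have hiper : i ∈ Function.periodicPts g :=
      Function.mk_mem_periodicPts (n := 1) (by omega) (by simpa [Function.IsPeriodicPt,
        Function.IsFixedPt] using hgii)
    have hmap : ∀ x ∈ F, g x ∈ F := by
      intro x hx
      simp only [hF, Finset.mem_filter, Finset.mem_univ, true_and] at hx ⊢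
      refine ⟨hbij.mapsTo hx.1, ?_⟩
      intro h1
      apply hx.2
      exact hbij.injOn hx.1 hiper (by rw [h1, hgii])
    have hinj : Set.InjOn g (F : Set (Fin n)) := by
      intro x hx y hy hxy
      have hx' : x ∈ F := hx
      have hy' : y ∈ F := hy
      simp only [hF, Finset.mem_filter, Finset.mem_univ, true_and] at hx' hy'
      exact hbij.injOn hx'.1 hy'.1 hxy
    have himg : F.image g = F := by
      apply Finset.eq_of_subset_of_card_le
      · intro y hy
        obtain ⟨x, hx, rfl⟩ := Finset.mem_image.mp hy
        exact hmap x hx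
      · rw [Finset.card_image_of_injOn hinj]
    have hsum : ∑ x ∈ F, (a (g x) : ℤ) = ∑ x ∈ F, (a x : ℤ) := by
      have h1 : ∑ y ∈ F.image g, (a y : ℤ) = ∑ x ∈ F, (a (g x) : ℤ) := Finset.sum_image hinj
      rw [← h1, himg]
    have hFe : F = ∅ := by
      by_contra hne
      have hcard1 : 1 ≤ F.card := Finset.card_pos.mpr (Finset.nonempty_iff_ne_empty.mpr hne)
      have hcard2 : F.card < n := by
        have h1 : F ⊆ Finset.univ.erase i := by
          intro x hx
          simp only [hF, Finset.mem_filter, Finset.mem_univ, true_and] at hx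
          simp [hx.2]
        have h2 := Finset.card_le_card h1
        rw [Finset.card_erase_of_mem (Finset.mem_univ _), Finset.card_univ,
          Fintype.card_fin] at h2
        omega
      set x : Fin n → ℕ := fun j => if j ∈ F then c j else 0 with hx
      have hSx : S a x = ∑ j ∈ F, (c j : ℤ) * a j := by
        unfold S
        rw [← Finset.sum_subset (Finset.subset_univ F)]
        · refine Finset.sum_congr rfl ?_
          intro j hj
          simp [hx, hj]
        · intro j _ hj
          simp [hx, hj]
      have hle : ∀ j, x j ≤ c j := by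
        intro j
        by_cases hj : j ∈ F
        · simp [hx, hj]
        · simp [hx, hj]
      apply D.gap (S_mem x) (hsub x hle) hcard1 hcard2
      have e1 : S a x + (F.card : ℤ) * α =
          ∑ j ∈ F, (((c j + 1 : ℕ) : ℤ) * a j + α - a (g j)) := by
        rw [Finset.sum_sub_distrib, Finset.sum_add_distrib, hsum, hSx]
        push_cast
        simp only [add_mul, Finset.sum_add_distrib, one_mul, Finset.sum_const, nsmul_eq_mul]
        ring
      rw [e1]
      refine InH.sum _ _ ?_
      intro j hj
      simp only [hF, Finset.mem_filter, Finset.mem_univ, true_and] at hj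
      exact hgx j hj.2
    intro x hx
    by_contra hne
    have : x ∈ F := by simp [hF, hx, hne]
    rw [hFe] at this
    simp at this
  have hreach : ∀ y : Fin n, ∃ t : ℕ, g^[t] y = i := by
    intro y
    obtain ⟨s, t, hst, he⟩ := Finite.exists_ne_map_eq_of_infinite (fun e : ℕ => g^[e] y)
    have key : ∀ s t : ℕ, s < t → g^[s] y = g^[t] y → ∃ t : ℕ, g^[t] y = i := by
      intro s t hlt he
      refine ⟨s, hper _ (Function.mk_mem_periodicPts (n := t - s) (by omega) ?_)⟩
      change g^[t - s] (g^[s] y) = g^[s] y
      rw [← Function.iterate_add_apply, show t - s + s = t by omega]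
      exact he.symm
    rcases lt_or_gt_of_ne hst with h1 | h1
    · exact key s t h1 he
    · exact key t s h1 he.symm
  set d : Fin n → ℕ := fun y => Nat.find (hreach y) with hd
  have hd1 : ∀ y, g^[d y] y = i := fun y => Nat.find_spec (hreach y)
  have hd2 : ∀ y t, t < d y → g^[t] y ≠ i := fun y t ht => Nat.find_min (hreach y) ht
  have hd3 : ∀ y t, g^[t] y = i → d y ≤ t := fun y t ht => Nat.find_min' (hreach y) ht
  have hdsucc : ∀ y, y ≠ i → d y = d (g y) + 1 := by
    intro y hy
    have h0 : d y ≠ 0 := by
      intro h0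
      apply hy
      have := hd1 y
      rw [h0] at this
      simpa using this
    have h1 : d (g y) ≤ d y - 1 := by
      apply hd3
      rw [← Function.iterate_succ_apply, show (d y - 1).succ = d y by omega]
      exact hd1 y
    have h2 : d y ≤ d (g y) + 1 := by
      apply hd3
      rw [Function.iterate_succ_apply]
      exact hd1 (g y)
    omega
  -- `j`
  have hexj : ∃ j : ℕ, InH a (S a c + (j : ℤ) * a i + α) := by
    refine ⟨(N - α).toNat, hN _ ?_⟩
    have h1 : N - α ≤ ((N - α).toNat : ℤ) := Int.self_le_toNat (N - α)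
    have h2 : (1 : ℤ) ≤ a i := by exact_mod_cast hpos i
    have h3 : (0 : ℤ) ≤ S a c := (S_mem c).nonneg
    nlinarith [Int.natCast_nonneg (N - α).toNat]
  set j := Nat.find hexj with hj
  have hj1 : InH a (S a c + (j : ℤ) * a i + α) := Nat.find_spec hexj
  have hj2 : ∀ m : ℕ, m < j → ¬ InH a (S a c + (m : ℤ) * a i + α) :=
    fun m hm => Nat.find_min hexj hm
  have hj0 : 0 < j := by
    rcases Nat.eq_zero_or_pos j with h0 | h0
    · exfalso; apply hX; rw [h0] at hj1; simpa using hj1
    · exact h0
  have cj : ((j - 1 : ℕ) : ℤ) = j - 1 := by push_cast [hj0]; ring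
  -- weights
  set B : ℕ := 1 + ∑ k, c k with hB
  set w : Fin n → ℕ := fun k => B ^ (n - d k) with hw
  set Φ : (Fin n → ℕ) → ℕ := fun x => ∑ k, x k * w k with hΦ
  have hexx : ∃ m : ℕ, ∃ x : Fin n → ℕ, (∀ k, x k ≤ c k) ∧
      InH a (S a x + (j : ℤ) * a i + α) ∧ Φ x = m := ⟨Φ c, c, fun _ => le_refl _, hj1, rfl⟩
  obtain ⟨x, hx1, hx2, hx3⟩ := Nat.find_spec hexx
  have hxmin : ∀ x' : Fin n → ℕ, (∀ k, x' k ≤ c k) → InH a (S a x' + (j : ℤ) * a i + α) →
      Φ x ≤ Φ x' := by
    intro x' h1 h2
    rw [hx3]
    exact Nat.find_min' hexx ⟨x', h1, h2, rfl⟩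
  -- the path
  obtain ⟨q, hq⟩ := exists_sub hx2 (hnz _ ((S_mem x).add (InH.smul j i)))
  set y : ℕ → Fin n := fun s => g^[s] q with hy
  have hyi : ∀ s, s < d q → y s ≠ i := fun s hs => hd2 q s hs
  have hyd : y (d q) = i := hd1 q
  have hysucc : ∀ s, y (s + 1) = g (y s) := fun s => Function.iterate_succ_apply' g s q
  have hdy : ∀ s, s ≤ d q → d (y s) + s = d q := by
    intro s
    induction s with
    | zero => intro _; simp [hy]
    | succ s ih =>
      intro hs
      have h1 := ih (by omega)
      have h2 := hdsucc (y s) (hyi s (by omega))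
      rw [hysucc]
      omega
  have hyinj : ∀ s t, s ≤ d q → t ≤ d q → y s = y t → s = t := by
    intro s t hs ht he
    have h1 := hdy s hs
    have h2 := hdy t ht
    rw [he] at h1
    omega
  have hdn : d q < n := by
    have h1 : (Finset.range (d q + 1)).card ≤ (Finset.univ : Finset (Fin n)).card := by
      apply Finset.card_le_card_of_injOn y
      · intro s _; simp
      · intro s hs t ht he
        have hs' : s < d q + 1 := by simpa using hs
        have ht' : t < d q + 1 := by simpa using ht
        exact hyinj s t (by omega) (by omega) he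
    simpa using h1
  -- the cost of the path
  set P : ℕ → Fin n → ℕ := fun t => ∑ s ∈ Finset.range t, Pi.single (y s) (c (y s)) with hP
  have hPapply : ∀ t k, P t k = ∑ s ∈ Finset.range t, (if k = y s then c (y s) else 0) := by
    intro t k
    simp only [hP, Finset.sum_apply, Pi.single_apply]
  have hPin : ∀ t, t ≤ d q → ∀ s, s < t → P t (y s) = c (y s) := by
    intro t ht s hs
    rw [hPapply, Finset.sum_eq_single s]
    · simp
    · intro s' hs' hne
      have hs'' : s' < t := by simpa using hs'
      rw [if_neg]
      intro he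
      exact hne (hyinj s s' (by omega) (by omega) he).symm
    · intro h1; exact absurd (Finset.mem_range.mpr hs) h1
  have hPout : ∀ t k, (∀ s, s < t → k ≠ y s) → P t k = 0 := by
    intro t k hk
    rw [hPapply]
    refine Finset.sum_eq_zero ?_
    intro s hs
    rw [if_neg (hk s (by simpa using hs))]
  have hPS : ∀ t, S a (P (t + 1)) = S a (P t) + (c (y t) : ℤ) * a (y t) := by
    intro t
    have h1 : P (t + 1) = P t + Pi.single (y t) (c (y t)) := by
      simp only [hP]
      rw [Finset.sum_range_succ]
    rw [h1, S_add, S_single]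
  have hQ : ∀ t, t ≤ d q →
      InH a (S a x + (j : ℤ) * a i + ((t + 1 : ℕ) : ℤ) * α - a (y t) + S a (P t)) := by
    intro t
    induction t with
    | zero =>
      intro _
      have h1 : S a (P 0) = 0 := by simp [hP, S]
      rw [h1]
      simpa [hy] using hq
    | succ t ih =>
      intro ht
      have h1 := (ih (by omega)).add (hgx (y t) (hyi t (by omega)))
      rw [hPS, hysucc]
      have e1 : S a x + (j : ℤ) * a i + ((t + 1 + 1 : ℕ) : ℤ) * α - a (g (y t)) +
          (S a (P t) + (c (y t) : ℤ) * a (y t)) =
          S a x + (j : ℤ) * a i + ((t + 1 : ℕ) : ℤ) * α - a (y t) + S a (P t) +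
            (((c (y t) + 1 : ℕ) : ℤ) * a (y t) + α - a (g (y t))) := by push_cast; ring
      rw [e1]; exact h1
  -- the path avoids the support of `x`
  have havoid : ∀ s, s < d q → x (y s) = 0 := by
    by_contra hcon
    push Not at hcon
    have hcon' : ∃ t, t < d q ∧ x (y t) ≠ 0 := hcon
    set t := Nat.find hcon' with ht
    obtain ⟨ht1, ht2⟩ := Nat.find_spec hcon'
    have ht3 : ∀ s, s < t → x (y s) = 0 := by
      intro s hs
      by_contra h1
      exact Nat.find_min hcon' hs ⟨by omega, h1⟩
    -- the new corner
    have hxle : ∃ x0 : Fin n → ℕ, x = x0 + Pi.single (y t) 1 := by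
      refine ⟨fun k => x k - (if k = y t then 1 else 0), ?_⟩
      funext k
      by_cases hk : k = y t
      · have h9 : x (y t) ≠ 0 := ht2
        rw [hk, Pi.add_apply, Pi.single_eq_same, if_pos rfl]
        omega
      · simp [hk]
    obtain ⟨x0, hx0⟩ := hxle
    have hSx : S a x = S a x0 + a (y t) := by
      rw [hx0, S_add, S_single]; simp
    have hx0k : ∀ k, x0 k ≤ x k := by
      intro k; rw [hx0]; simp
    have hx'le : ∀ k, (x0 + P t) k ≤ c k := by
      intro k
      rw [Pi.add_apply]
      by_cases hk : ∃ s, s < t ∧ k = y s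
      · obtain ⟨s, hs, rfl⟩ := hk
        have h1 := hx0k (y s)
        rw [ht3 s hs] at h1
        rw [hPin t ht1.le s hs]
        omega
      · push Not at hk
        rw [hPout t k hk]
        have := hx0k k
        have := hx1 k
        omega
    have hin : InH a (S a (x0 + P t) + (j : ℤ) * a i + α) := by
      by_contra hno
      have h1 : InH a (S a (x0 + P t) + (j : ℤ) * a i) := (S_mem _).add (InH.smul j i)
      apply D.gap h1 hno (r := t + 1) (by omega) (by omega)
      have h2 := hQ t ht1.le
      have e1 : S a (x0 + P t) + (j : ℤ) * a i + ((t + 1 : ℕ) : ℤ) * α =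
          S a x + (j : ℤ) * a i + ((t + 1 : ℕ) : ℤ) * α - a (y t) + S a (P t) := by
        rw [S_add, hSx]; ring
      rw [e1]; exact h2
    have hle := hxmin _ hx'le hin
    -- compare the weights
    have hΦadd : ∀ u v : Fin n → ℕ, Φ (u + v) = Φ u + Φ v := by
      intro u v
      simp only [hΦ, Pi.add_apply, add_mul, Finset.sum_add_distrib]
    have hΦsingle : ∀ (k : Fin n) (m : ℕ), Φ (Pi.single k m) = m * w k := by
      intro k m
      simp only [hΦ]
      rw [Finset.sum_eq_single k]
      · simp
      · intro k' _ hk'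
        rw [Pi.single_eq_of_ne hk']; simp
      · simp
    have hΦP : ∀ m, Φ (P m) = ∑ s ∈ Finset.range m, c (y s) * w (y s) := by
      intro m
      induction m with
      | zero => simp [hP, hΦ]
      | succ m ih =>
        have h1 : P (m + 1) = P m + Pi.single (y m) (c (y m)) := by
          simp only [hP]
          rw [Finset.sum_range_succ]
        rw [h1, hΦadd, hΦsingle, ih, Finset.sum_range_succ]
    have hwt : ∀ s, s < t → w (y s) ≤ B ^ (n - d (y t) - 1) := by
      intro s hs
      have h1 := hdy s (by omega)
      have h2 := hdy t ht1.le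
      simp only [hw]
      apply Nat.pow_le_pow_right (by omega)
      omega
    have hcs : ∑ s ∈ Finset.range t, c (y s) ≤ ∑ k, c k := by
      have h1 : ∑ k ∈ (Finset.range t).image y, c k = ∑ s ∈ Finset.range t, c (y s) := by
        apply Finset.sum_image
        intro s hs s' hs' he
        have h2 : s < t := by simpa using hs
        have h3 : s' < t := by simpa using hs'
        exact hyinj s s' (by omega) (by omega) he
      rw [← h1]
      exact Finset.sum_le_sum_of_subset (Finset.subset_univ _)
    have hlt : Φ (P t) < w (y t) := by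
      rw [hΦP]
      calc ∑ s ∈ Finset.range t, c (y s) * w (y s)
          ≤ ∑ s ∈ Finset.range t, c (y s) * B ^ (n - d (y t) - 1) := by
            refine Finset.sum_le_sum ?_
            intro s hs
            exact Nat.mul_le_mul_left _ (hwt s (by simpa using hs))
        _ = (∑ s ∈ Finset.range t, c (y s)) * B ^ (n - d (y t) - 1) := by
            rw [Finset.sum_mul]
        _ ≤ (∑ k, c k) * B ^ (n - d (y t) - 1) := Nat.mul_le_mul_right _ hcs
        _ < B * B ^ (n - d (y t) - 1) := by
            apply Nat.mul_lt_mul_of_pos_right (by omega)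
            exact Nat.pow_pos (by omega)
        _ = B ^ (n - d (y t)) := by
            rw [← Nat.pow_succ']
            congr 1
            have h2 := hdy t ht1.le
            omega
    have hΦx : Φ x = Φ x0 + w (y t) := by
      rw [hx0, hΦadd, hΦsingle]; simp
    rw [hΦadd, hΦx] at hle
    omega
  -- so the path is a full cycle
  have hfull : d q + 1 = n := by
    by_contra hne
    have h1 := hQ (d q) (le_refl _)
    rw [hyd] at h1
    have hle : ∀ k, (x + P (d q)) k ≤ c k := by
      intro k
      rw [Pi.add_apply]
      by_cases hk : ∃ s, s < d q ∧ k = y s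
      · obtain ⟨s, hs, rfl⟩ := hk
        rw [havoid s hs, hPin (d q) (le_refl _) s hs]
        omega
      · push Not at hk
        rw [hPout (d q) k hk]
        have := hx1 k
        omega
    obtain ⟨z, hz⟩ := S_le (a := a) hle
    rw [S_add] at hz
    apply D.gap ((S_mem c).add (InH.smul (a := a) (j - 1) i)) (hj2 (j - 1) (by omega))
      (r := d q + 1) (by omega) (by omega)
    have h2 := h1.add (S_mem z)
    have e1 : S a c + ((j - 1 : ℕ) : ℤ) * a i + ((d q + 1 : ℕ) : ℤ) * α =
        S a x + (j : ℤ) * a i + ((d q + 1 : ℕ) : ℤ) * α - a i + S a (P (d q)) + S a z := by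
      rw [hz, cj]; ring
    rw [e1]; exact h2
  have hx0 : ∀ k, x k = 0 := by
    intro k
    by_cases hki : k = i
    · have := hx1 k
      rw [hki, hci] at this
      rw [hki]; omega
    · have hsurj : ∃ s, s < d q + 1 ∧ y s = k := by
        have h1 : (Finset.range (d q + 1)).image y = Finset.univ := by
          apply Finset.eq_univ_of_card
          rw [Finset.card_image_of_injOn, Finset.card_range, Fintype.card_fin, hfull]
          intro s hs t ht he
          have hs' : s < d q + 1 := by simpa using hs
          have ht' : t < d q + 1 := by simpa using ht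
          exact hyinj s t (by omega) (by omega) he
        have h2 : k ∈ (Finset.range (d q + 1)).image y := by rw [h1]; exact Finset.mem_univ _
        obtain ⟨s, hs, he⟩ := Finset.mem_image.mp h2
        exact ⟨s, by simpa using hs, he⟩
      obtain ⟨s, hs, he⟩ := hsurj
      have hsd : s < d q := by
        rcases Nat.lt_or_ge s (d q) with h1 | h1
        · exact h1
        · exfalso
          have : s = d q := by omega
          rw [this, hyd] at he
          exact hki he.symm
      rw [← he]
      exact havoid s hsd
  have hji : InH a ((j : ℤ) * a i + α) := by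
    have h1 : S a x = 0 := by
      unfold S
      refine Finset.sum_eq_zero ?_
      intro k _
      rw [hx0 k]; simp
    rw [h1] at hx2
    simpa using hx2
  -- conclusion
  apply of_corner hn ha D (Function.update c i (j - 1))
  · intro k
    by_cases hk : k = i
    · subst hk
      rw [Function.update_self, show j - 1 + 1 = j by omega]
      exact hji
    · rw [Function.update_of_ne hk]
      exact hc k hk
  · have h1 : S a (Function.update c i (j - 1)) = S a c + ((j - 1 : ℕ) : ℤ) * a i := by
      have h2 : Function.update c i (j - 1) = c + Pi.single i (j - 1) := by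
        funext k
        by_cases hk : k = i
        · subst hk; simp [hci]
        · simp [hk]
      rw [h2, S_add, S_single]
    rw [h1]
    exact hj2 (j - 1) (by omega)

end Pool.Agent.Run7.h37.DN.Corner
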