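import Pool.Agent.Run7.h37.DN.Two

/-!
# The case where `h + n α` has a unique factorization
-/

namespace Pool.Agent.Run7.h37.DN

open Q122.DetNS

theorem caseDown {n : ℕ} {a : Fin n → ℕ} {h α : ℤ} (hn : 3 ≤ n) (ha : IsMinGen a)
    (hAP : IsAP a h α) (huniq : ∃! v : Fin n → ℕ, h + n * α = ∑ i, (v i : ℤ) * a i)
    (k : Type*) [Field k] : Cond2 k a := by
  classical
  obtain ⟨hg, hmin⟩ := ha
  have hpos : ∀ i, 0 < a i := fun i => (hmin i).1
  obtain ⟨v, hv, hv2⟩ := huniq
  have hα : 0 < α := hAP.1
  have D := dir_down hn hg hAP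
  have hα0 := hAP.alpha_not hn
  -- `(v_i + 1) a_i - α ∈ H`
  have h1 : ∀ i, InH a (((v i + 1 : ℕ) : ℤ) * a i + -α) := by
    intro i
    by_contra hcon
    obtain ⟨w, hw⟩ := D.dual _ (InH.smul (v i + 1) i) hcon
    have h2 : h + n * α = ∑ j, ((w j + (if j = i then v i + 1 else 0) : ℕ) : ℤ) * a j := by
      have e1 : ∑ j, ((w j + (if j = i then v i + 1 else 0) : ℕ) : ℤ) * a j =
          ∑ j, (w j : ℤ) * a j + ((v i + 1 : ℕ) : ℤ) * a i := by
        have : ∀ j, ((w j + (if j = i then v i + 1 else 0) : ℕ) : ℤ) * a j =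
            (w j : ℤ) * a j + (if j = i then ((v i + 1 : ℕ) : ℤ) * a i else 0) := by
          intro j
          by_cases hj : j = i
          · subst hj; simp; ring
          · simp [hj]
        simp only [this, Finset.sum_add_distrib]
        simp
      rw [e1, ← hw]; ring
    have h3 := hv2 (fun j => w j + (if j = i then v i + 1 else 0)) h2
    have h4 := congrFun h3 i
    simp at h4
    omega
  choose y hy using h1
  -- partial sums
  have h2 : ∀ (F : Finset (Fin n)) (r : ℕ), 1 ≤ r → r < n →
      ¬ InH a (∑ i ∈ F, (v i : ℤ) * a i + r * -α) := by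
    intro F r hr1 hr2 hcon
    apply D.top r hr1 hr2
    have e : h + n * α + r * -α =
        (∑ i ∈ F, (v i : ℤ) * a i + r * -α) + ∑ i ∈ Fᶜ, (v i : ℤ) * a i := by
      rw [hv]
      have := Finset.sum_add_sum_compl F (fun i => (v i : ℤ) * a i)
      linarith
    rw [e]
    exact hcon.add (InH.sum _ _ (fun i _ => InH.smul _ _))
  -- subtraction of a generator
  have h3 : ∀ i j, 1 ≤ y i j → InH a (((v i + 1 : ℕ) : ℤ) * a i + -α - a j) := by
    intro i j hij
    exact sub_gen (hy i) hij
  -- every choice function is bijective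
  have h4 : ∀ g : Fin n → Fin n, (∀ i, 1 ≤ y i (g i)) → Function.Bijective g := by
    intro g hgy
    set F : Finset (Fin n) := Finset.univ.filter (fun x => x ∈ Function.periodicPts g) with hF
    have hbij := Function.bijOn_periodicPts g
    obtain ⟨x0, hx0⟩ := exists_periodic (⟨0, by omega⟩ : Fin n) g
    have hFne : 1 ≤ F.card := by
      refine Finset.card_pos.mpr ⟨x0, ?_⟩
      simp [hF, hx0]
    have hsum : ∑ i ∈ F, (a (g i) : ℤ) = ∑ i ∈ F, (a i : ℤ) := by
      refine Finset.sum_nbij g ?_ ?_ ?_ ?_
      · intro i hi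
        simp only [hF, Finset.mem_filter, Finset.mem_univ, true_and] at hi ⊢
        exact hbij.mapsTo hi
      · intro i hi j hj hij
        simp only [hF, Finset.coe_filter, Finset.mem_univ, true_and, Set.mem_ofPred_eq] at hi hj
        exact hbij.injOn hi hj hij
      · intro j hj
        simp only [hF, Finset.coe_filter, Finset.mem_univ, true_and, Set.mem_ofPred_eq] at hj
        obtain ⟨i, hi, hij⟩ := hbij.surjOn hj
        refine ⟨i, ?_, hij⟩
        simp only [hF, Finset.coe_filter, Finset.mem_univ, true_and, Set.mem_ofPred_eq]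
        exact hi
      · intro i _; rfl
    have hH : InH a (∑ i ∈ F, (v i : ℤ) * a i + (F.card : ℤ) * -α) := by
      have e : ∑ i ∈ F, (v i : ℤ) * a i + (F.card : ℤ) * -α =
          ∑ i ∈ F, (((v i + 1 : ℕ) : ℤ) * a i + -α - a (g i)) := by
        rw [Finset.sum_sub_distrib, Finset.sum_add_distrib, hsum]
        push_cast
        simp only [add_mul, Finset.sum_add_distrib, one_mul, Finset.sum_const, nsmul_eq_mul]
        ring
      rw [e]
      exact InH.sum _ _ (fun i _ => h3 i (g i) (hgy i))
    have hcard : F = Finset.univ := by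
      by_contra hne
      have hlt : F.card < n := by
        have := Finset.card_lt_card (Finset.ssubset_univ_iff.mpr hne)
        simpa using this
      exact h2 F F.card hFne hlt hH
    have hall : ∀ x, x ∈ Function.periodicPts g := by
      intro x
      have : x ∈ F := by rw [hcard]; exact Finset.mem_univ x
      simpa [hF] using this
    refine ⟨?_, ?_⟩
    · intro i j hij
      exact hbij.injOn (hall i) (hall j) hij
    · intro j
      obtain ⟨i, _, hi⟩ := hbij.surjOn (hall j)
      exact ⟨i, hi⟩
  -- nonzero
  have h5 : ∀ i, ∃ j, 1 ≤ y i j := by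
    intro i
    by_contra hcon
    push Not at hcon
    have : ∑ j, (y i j : ℤ) * a j = 0 := by
      refine Finset.sum_eq_zero ?_
      intro j _
      have := hcon j
      have h0 : y i j = 0 := by omega
      simp [h0]
    rw [← hy i] at this
    apply hα0
    have e : α = ((v i + 1 : ℕ) : ℤ) * a i := by linarith
    rw [e]
    exact InH.smul _ _
  choose g hgy using h5
  have hgb := h4 g hgy
  let π : Equiv.Perm (Fin n) := Equiv.ofBijective g hgb
  have h6 : ∀ i j, 1 ≤ y i j → j = g i := by
    intro i j hij
    by_contra hne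
    have hg' := h4 (Function.update g i j) (by
      intro x
      by_cases hx : x = i
      · subst hx; simpa using hij
      · simpa [Function.update_of_ne hx] using hgy x)
    obtain ⟨i', hi'⟩ := hgb.2 j
    have hne' : i' ≠ i := by
      rintro rfl
      exact hne hi'.symm
    have e1 : Function.update g i j i' = Function.update g i j i := by
      rw [Function.update_of_ne hne', Function.update_self, hi']
    exact hne' (hg'.1 e1)
  have h7 : ∀ i, ((v i + 1 : ℕ) : ℤ) * a i + -α = (y i (g i) : ℤ) * a (g i) := by
    intro i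
    rw [hy i, Finset.sum_eq_single (g i)]
    · intro j _ hj
      have : ¬ 1 ≤ y i j := fun hh => hj (h6 i j hh)
      have h0 : y i j = 0 := by omega
      simp [h0]
    · simp
  have hpi : ∀ j, g (π.symm j) = j := fun j => π.apply_symm_apply j
  have hrel : ∀ j, (y (π.symm j) j : ℤ) * a j + α =
      ((v (π.symm j) + 1 : ℕ) : ℤ) * a (π.symm j) := by
    intro j
    have h8 := h7 (π.symm j)
    rw [hpi j] at h8
    linarith
  refine finish (by omega) hpos hα (fun i => v i + 1) (fun j => y (π.symm j) j) π.symm ?_ ?_ ?_ ?_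
  · intro i; omega
  · intro j
    have := hgy (π.symm j)
    rw [hpi j] at this
    exact this
  · intro j
    exact hrel j
  · have e : ∑ j, ((y (π.symm j) j : ℤ) - 1) * a j = h := by
      have e1 : ∀ j, ((y (π.symm j) j : ℤ) - 1) * a j =
          (((v (π.symm j) + 1 : ℕ) : ℤ) * a (π.symm j) - α) - a j := by
        intro j
        have := hrel j
        linarith
      simp only [e1]
      rw [Finset.sum_sub_distrib,
        Equiv.sum_comp π.symm (fun i => ((v i + 1 : ℕ) : ℤ) * (a i : ℤ) - α),
        Finset.sum_sub_distrib]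
      have e2 : ∑ i, ((v i + 1 : ℕ) : ℤ) * (a i : ℤ) = h + n * α + ∑ i, (a i : ℤ) := by
        rw [hv, ← Finset.sum_add_distrib]
        refine Finset.sum_congr rfl ?_
        intro i _
        push_cast; ring
      rw [e2]
      simp only [Finset.sum_const, Finset.card_univ, Fintype.card_fin, nsmul_eq_mul]
      ring
    rw [e]
    exact hAP.not_mem (by omega) (by omega)

end Pool.Agent.Run7.h37.DN
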