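import Pool.Agent.Q122.DetNS.CaseB

/-!
# At most two generators divide `h` (or `h + n α`)

Both directions of the arithmetic sequence are treated together: `Dir a β g` holds for
`(β, g) = (α, h)` and for `(β, g) = (-α, h + n α)`.
-/

namespace Pool.Agent.Run7.h37.DN

open Q122.DetNS

variable {n : ℕ} {a : Fin n → ℕ}

/-- One direction of the arithmetic sequence of pseudo-Frobenius numbers. -/
structure Dir {n : ℕ} (a : Fin n → ℕ) (β g : ℤ) : Prop where
  mem : InH a g
  top : ∀ r : ℕ, 1 ≤ r → r < n → ¬ InH a (g + r * β)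
  dual : ∀ u, InH a u → ¬ InH a (u + β) → InH a (g - u)
  neg : ¬ InH a (-β)

theorem Dir.gap {β g : ℤ} (D : Dir a β g) {u : ℤ} (hu : InH a u) (hu2 : ¬ InH a (u + β))
    {r : ℕ} (h1 : 1 ≤ r) (h2 : r < n) : ¬ InH a (u + r * β) := by
  intro hcon
  apply D.top r h1 h2
  have e : g + r * β = (u + r * β) + (g - u) := by ring
  rw [e]
  exact hcon.add (D.dual u hu hu2)

theorem Dir.low {β g : ℤ} (D : Dir a β g) {u : ℤ} (hu : InH a (g - u))
    {r : ℕ} (h1 : 1 ≤ r) (h2 : r < n) : ¬ InH a (u + r * β) := by
  intro hcon
  apply D.top r h1 h2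
  have e : g + r * β = (u + r * β) + (g - u) := by ring
  rw [e]
  exact hcon.add hu

theorem dir_up {h α : ℤ} (hn : 3 ≤ n) (hg : Finset.univ.gcd a = 1) (hAP : IsAP a h α) :
    Dir a α h := by
  have hα := hAP.1
  refine ⟨?_, ?_, ?_, ?_⟩
  · have := hAP.dual hg (u := 0) InH.zero (by simpa using hAP.alpha_not hn)
    simpa using this
  · intro r h1 h2
    exact hAP.not_mem h1 h2
  · intro u hu hu2
    exact hAP.dual hg hu hu2
  · intro hcon
    have := hcon.nonneg
    linarith

theorem dir_down {h α : ℤ} (hn : 3 ≤ n) (hg : Finset.univ.gcd a = 1) (hAP : IsAP a h α) :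
    Dir a (-α) (h + n * α) := by
  have hα := hAP.1
  have hdual : ∀ u, InH a u → ¬ InH a (u + -α) → InH a (h + n * α - u) := by
    intro u hu hu2
    obtain ⟨w, hw, hw2⟩ := exists_pf hg hu2
    rw [hAP.2] at hw2
    obtain ⟨j, hj1, hj2, hj⟩ := hw2
    by_cases hj3 : j + 1 < n
    · exfalso
      apply hAP.not_mem (j := j + 1) (by omega) hj3
      have e : h + ((j + 1 : ℕ) : ℤ) * α = u + w := by
        push_cast
        linarith
      rw [e]
      exact hu.add hw
    · have hjn : j + 1 = n := by omega
      have hjz : ((j : ℤ) + 1) = n := by exact_mod_cast hjn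
      have e : h + n * α - u = w := by
        rw [← hjz]
        linarith
      rw [e]
      exact hw
  refine ⟨?_, ?_, hdual, ?_⟩
  · have := hdual 0 InH.zero (by
      intro hcon
      have := hcon.nonneg
      linarith)
    simpa using this
  · intro r h1 h2
    have h3 := hAP.not_mem (j := n - r) (by omega) (by omega)
    intro hcon
    apply h3
    have e : h + ((n - r : ℕ) : ℤ) * α = h + n * α + r * -α := by
      have : ((n - r : ℕ) : ℤ) = n - r := by
        push_cast [show r ≤ n by omega]; ring
      rw [this]; ring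
    rw [e]
    exact hcon
  · rw [neg_neg]
    exact hAP.alpha_not hn

theorem sub_gen {x : ℤ} {v : Fin n → ℕ} (hx : x = ∑ c, (v c : ℤ) * a c) {c : Fin n}
    (hc : 1 ≤ v c) : InH a (x - a c) := by
  classical
  refine ⟨fun y => v y - (if y = c then 1 else 0), ?_⟩
  have : ∀ y, ((v y - (if y = c then 1 else 0) : ℕ) : ℤ) * a y =
      (v y : ℤ) * a y - (if y = c then (a c : ℤ) else 0) := by
    intro y
    by_cases hy : y = c
    · subst hy; simp only [if_true]; push_cast [hc]; ring
    · simp [hy]
  simp only [this, Finset.sum_sub_distrib]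
  rw [hx]; simp

theorem sum_two {v : Fin n → ℕ} {i j : Fin n} (hij : i ≠ j)
    (hv : ∀ c, c ≠ i → c ≠ j → v c = 0) :
    ∑ c, (v c : ℤ) * a c = (v i : ℤ) * a i + (v j : ℤ) * a j := by
  refine Finset.sum_eq_add i j hij ?_ ?_ ?_
  · rintro c _ ⟨h1, h2⟩
    simp [hv c h1 h2]
  · simp
  · simp

/-- If all generators dividing `g` are among `a_i, a_j`, then `g` has at most one
factorization. -/
theorem uniq {β g : ℤ} (D : Dir a β g) (hpos : ∀ c, 0 < a c) {i j : Fin n} (hij : i ≠ j)
    (hn : 3 ≤ n) (hA : ∀ c, InH a (g - a c) → c = i ∨ c = j) :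
    ∃! v : Fin n → ℕ, g = ∑ c, (v c : ℤ) * a c := by
  classical
  have hsupp : ∀ v : Fin n → ℕ, g = ∑ c, (v c : ℤ) * a c → ∀ c, c ≠ i → c ≠ j → v c = 0 := by
    intro v hv c h1 h2
    by_contra hcon
    rcases hA c (sub_gen hv (Nat.one_le_iff_ne_zero.mpr hcon)) with h3 | h3
    · exact h1 h3
    · exact h2 h3
  have hpi : (0 : ℤ) < a i := by exact_mod_cast hpos i
  have hpj : (0 : ℤ) < a j := by exact_mod_cast hpos j
  -- two different factorizations are impossible
  have hmain : ¬ ∃ d : ℕ, ∃ p q q' : ℕ, 0 < d ∧ g = (p : ℤ) * a i + q * a j ∧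
      g = ((p + d : ℕ) : ℤ) * a i + q' * a j := by
    intro hex
    obtain ⟨p, q, q', hd, h1, h2⟩ := Nat.find_spec hex
    have hmin := fun d' => Nat.find_min (m := d') hex
    set d := Nat.find hex with hdd
    have hqq : q' < q := by
      by_contra hcon
      push Not at hcon
      have h3 : (q : ℤ) * a j ≤ q' * a j := by
        have : (q : ℤ) ≤ q' := by exact_mod_cast hcon
        exact mul_le_mul_of_nonneg_right this hpj.le
      have h4 : (0 : ℤ) < d * a i := by
        have : (0 : ℤ) < d := by exact_mod_cast hd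
        positivity
      push_cast at h2
      linarith [h1, h2]
    set V : ℤ := ((p + 1 : ℕ) : ℤ) * a i + ((q' + 1 : ℕ) : ℤ) * a j with hV
    have hVH : InH a V := (InH.smul (p + 1) i).add (InH.smul (q' + 1) j)
    -- `V - a i` and `V - a j` divide `g`
    have hVi : ∀ r : ℕ, 1 ≤ r → r < n → ¬ InH a (V - a i + r * β) := by
      intro r hr1 hr2
      refine D.low ?_ hr1 hr2
      have e : g - (V - a i) = ((q - q' - 1 : ℕ) : ℤ) * a j := by
        have : ((q - q' - 1 : ℕ) : ℤ) = (q : ℤ) - q' - 1 := by
          rw [Nat.cast_sub (by omega), Nat.cast_sub (by omega)]; simp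
        rw [this, hV]
        push_cast
        linarith
      rw [e]
      exact InH.smul _ _
    have hVj : ∀ r : ℕ, 1 ≤ r → r < n → ¬ InH a (V - a j + r * β) := by
      intro r hr1 hr2
      refine D.low ?_ hr1 hr2
      have e : g - (V - a j) = ((d - 1 : ℕ) : ℤ) * a i := by
        have : ((d - 1 : ℕ) : ℤ) = (d : ℤ) - 1 := by
          rw [Nat.cast_sub (by omega)]; simp
        rw [this, hV]
        push_cast at h2 ⊢
        linarith
      rw [e]
      exact InH.smul _ _
    -- `V + β ∈ H`
    have hV1 : InH a (V + β) := by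
      by_contra hcon
      obtain ⟨z, hz⟩ := D.dual V hVH hcon
      have hz0 : ∀ c, c ≠ i → c ≠ j → z c = 0 := by
        intro c hc1 hc2
        by_contra hcc
        have h3 := sub_gen hz (Nat.one_le_iff_ne_zero.mpr hcc)
        have h4 : InH a (g - a c) := by
          have e : g - a c = (g - V - a c) + V := by ring
          rw [e]
          exact h3.add hVH
        rcases hA c h4 with h5 | h5
        · exact hc1 h5
        · exact hc2 h5
      rw [sum_two hij hz0] at hz
      have hg3 : g = ((p + 1 + z i : ℕ) : ℤ) * a i + ((q' + 1 + z j : ℕ) : ℤ) * a j := by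
        have : g = V + ((z i : ℤ) * a i + (z j : ℤ) * a j) := by linarith
        rw [this, hV]
        push_cast
        ring
      by_cases hlt : p + 1 + z i < p + d
      · refine hmin (1 + z i) (by omega) ⟨p, q, q' + 1 + z j, by omega, h1, ?_⟩
        rw [← add_assoc]
        exact hg3
      · have h5 : ((p + d : ℕ) : ℤ) * a i ≤ ((p + 1 + z i : ℕ) : ℤ) * a i := by
          have : ((p + d : ℕ) : ℤ) ≤ ((p + 1 + z i : ℕ) : ℤ) := by
            exact_mod_cast not_lt.mp hlt
          exact mul_le_mul_of_nonneg_right this hpi.le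
        have h6 : (q' : ℤ) * a j < ((q' + 1 + z j : ℕ) : ℤ) * a j := by
          have : (q' : ℤ) < ((q' + 1 + z j : ℕ) : ℤ) := by
            push_cast
            have : (0 : ℤ) ≤ z j := by positivity
            linarith
          exact mul_lt_mul_of_pos_right this hpj
        linarith
    -- the other generators
    have hother : ∀ c, c ≠ i → c ≠ j → InH a (a c + β) := by
      intro c hc1 hc2
      by_contra hcon
      rcases hA c (D.dual (a c) (InH.gen c) hcon) with h5 | h5
      · exact hc1 h5
      · exact hc2 h5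
    have hnz : ∀ x, InH a x → x + β ≠ 0 := by
      intro x hx hx0
      apply D.neg
      have e : -β = x := by linarith
      rw [e]
      exact hx
    obtain ⟨k0, hk0⟩ := exists_sub hV1 (hnz V hVH)
    have hnext : ∀ c : Fin n, ∃ c' : Fin n, (c ≠ i → c ≠ j → InH a (a c + β - a c')) := by
      intro c
      by_cases hc : c ≠ i ∧ c ≠ j
      · obtain ⟨c', hc'⟩ := exists_sub (hother c hc.1 hc.2) (hnz _ (InH.gen c))
        exact ⟨c', fun _ _ => hc'⟩
      · exact ⟨c, fun h1 h2 => absurd ⟨h1, h2⟩ hc⟩
    choose nx hnx using hnext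
    let s : ℕ → Fin n := fun t => nx^[t] k0
    have hs1 : ∀ t, s (t + 1) = nx (s t) := fun t => Function.iterate_succ_apply' nx t k0
    have hside : ∀ t, t + 1 < n → InH a (V + ((t + 1 : ℕ) : ℤ) * β - a (s t)) →
        s t ≠ i ∧ s t ≠ j := by
      intro t ht hin
      constructor
      · intro hc
        apply hVi (t + 1) (by omega) ht
        rw [hc] at hin
        have e : V - a i + ((t + 1 : ℕ) : ℤ) * β = V + ((t + 1 : ℕ) : ℤ) * β - a i := by ring
        rw [e]
        exact hin
      · intro hc
        apply hVj (t + 1) (by omega) ht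
        rw [hc] at hin
        have e : V - a j + ((t + 1 : ℕ) : ℤ) * β = V + ((t + 1 : ℕ) : ℤ) * β - a j := by ring
        rw [e]
        exact hin
    have hin : ∀ t, t + 1 < n → InH a (V + ((t + 1 : ℕ) : ℤ) * β - a (s t)) := by
      intro t
      induction t with
      | zero =>
        intro _
        have e : V + ((0 + 1 : ℕ) : ℤ) * β - a (s 0) = V + β - a k0 := by
          push_cast
          simp [s]
        rw [e]
        exact hk0
      | succ t ih =>
        intro ht
        have h3 := ih (by omega)
        obtain ⟨h4, h5⟩ := hside t (by omega) h3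
        have h6 := hnx (s t) h4 h5
        rw [← hs1] at h6
        have e : V + ((t + 1 + 1 : ℕ) : ℤ) * β - a (s (t + 1)) =
            (V + ((t + 1 : ℕ) : ℤ) * β - a (s t)) + (a (s t) + β - a (s (t + 1))) := by
          push_cast; ring
        rw [e]
        exact h3.add h6
    have hpath : ∀ e t, t + e + 1 < n → InH a (a (s t) + (e : ℤ) * β - a (s (t + e))) := by
      intro e
      induction e with
      | zero =>
        intro t _
        simpa using InH.zero
      | succ e ih =>
        intro t ht
        have h3 := ih t (by omega)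
        obtain ⟨h4, h5⟩ := hside (t + e) (by omega) (hin (t + e) (by omega))
        have h6 := hnx (s (t + e)) h4 h5
        rw [← hs1] at h6
        have e1 : a (s t) + ((e + 1 : ℕ) : ℤ) * β - a (s (t + (e + 1))) =
            (a (s t) + (e : ℤ) * β - a (s (t + e))) + (a (s (t + e)) + β - a (s (t + e + 1))) := by
          rw [← add_assoc t e 1]
          push_cast; ring
        rw [e1]
        exact h3.add h6
    have hβ : ∀ r : ℕ, 1 ≤ r → r < n → ¬ InH a ((r : ℤ) * β) := by
      intro r hr1 hr2
      have := D.low (u := 0) (by simpa using D.mem) hr1 hr2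
      simpa using this
    have hne : ∀ t e, 1 ≤ e → t + e + 1 < n → s t ≠ s (t + e) := by
      intro t e he hte hc
      have h3 := hpath e t hte
      rw [← hc] at h3
      apply hβ e he (by omega)
      have e1 : (e : ℤ) * β = a (s t) + (e : ℤ) * β - a (s t) := by ring
      rw [e1]
      exact h3
    have hcard := Finset.card_le_card_of_injOn (s := Finset.range (n - 1))
      (t := (Finset.univ.erase i).erase j) s
      (by
        intro t ht
        have ht' : t < n - 1 := by simpa using ht
        obtain ⟨h4, h5⟩ := hside t (by omega) (hin t (by omega))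
        simp [h4, h5])
      (by
        intro t ht t' ht' htt
        have h3 : t < n - 1 := by simpa using ht
        have h4 : t' < n - 1 := by simpa using ht'
        by_contra hcon
        rcases lt_or_gt_of_ne hcon with hlt | hlt
        · apply hne t (t' - t) (by omega) (by omega)
          rw [show t + (t' - t) = t' by omega]
          exact htt
        · apply hne t' (t - t') (by omega) (by omega)
          rw [show t' + (t - t') = t by omega]
          exact htt.symm)
    rw [Finset.card_range, Finset.card_erase_of_mem (by simp [hij.symm]),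
      Finset.card_erase_of_mem (Finset.mem_univ i), Finset.card_univ, Fintype.card_fin] at hcard
    omega
  obtain ⟨v, hv⟩ := D.mem
  refine ⟨v, hv, ?_⟩
  intro w hw
  have hv0 := hsupp v hv
  have hw0 := hsupp w hw
  have hv2 : g = (v i : ℤ) * a i + (v j : ℤ) * a j := by rw [← sum_two hij hv0]; exact hv
  have hw2 : g = (w i : ℤ) * a i + (w j : ℤ) * a j := by rw [← sum_two hij hw0]; exact hw
  have hi : w i = v i := by
    rcases lt_trichotomy (w i) (v i) with hlt | heq | hgt
    · exfalso
      refine hmain ⟨v i - w i, w i, w j, v j, by omega, hw2, ?_⟩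
      rw [show w i + (v i - w i) = v i by omega]
      exact hv2
    · exact heq
    · exfalso
      refine hmain ⟨w i - v i, v i, v j, w j, by omega, hv2, ?_⟩
      rw [show v i + (w i - v i) = w i by omega]
      exact hw2
  have hj : w j = v j := by
    rw [hi] at hw2
    have h3 : (w j : ℤ) * a j = (v j : ℤ) * a j := by linarith
    have h4 := mul_right_cancel₀ hpj.ne' h3
    exact_mod_cast h4
  funext c
  by_cases hc1 : c = i
  · rw [hc1, hi]
  · by_cases hc2 : c = j
    · rw [hc2, hj]
    · rw [hv0 c hc1 hc2, hw0 c hc1 hc2]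

end Pool.Agent.Run7.h37.DN
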